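import Mathlib
import Pool.Agent.Helper256.KM.Mertens

/-!
# Project AM (MP_157626_nt, helper72): sums of `ρ ^ ω(n)`

The bound of Hall and Tenenbaum `∑_{n ≤ Y} ρ ^ ω(n) ≤ C Y (log Y) ^ (ρ - 1)` for `0 < ρ ≤ 2`.
-/

set_option autoImplicit false

open Finset

namespace Pool.Agent.L7h46.AM

/-- the weight `ρ ^ ω(m)` -/
noncomputable def hh (ρ : ℝ) (m : ℕ) : ℝ := ρ ^ m.primeFactors.card

lemma hh_pos {ρ : ℝ} (h0 : 0 < ρ) (m : ℕ) : 0 < hh ρ m := by unfold hh; positivity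

lemma hh_one (ρ : ℝ) : hh ρ 1 = 1 := by simp [hh]

lemma hh_mul {ρ : ℝ} {m n : ℕ} (h : Nat.Coprime m n) : hh ρ (m * n) = hh ρ m * hh ρ n := by
  unfold hh
  rw [Nat.Coprime.primeFactors_mul h, Finset.card_union_of_disjoint h.disjoint_primeFactors, pow_add]

lemma hh_le {ρ : ℝ} (h0 : 0 < ρ) (h2 : ρ ≤ 2) {d n : ℕ} (hd : IsPrimePow d) (hn : n ≠ 0) :
    hh ρ (d * n) ≤ 2 * hh ρ n := by
  obtain ⟨p, a, hp, ha, rfl⟩ := hd
  have hp' : p.Prime := hp.nat_prime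
  have hd0 : p ^ a ≠ 0 := pow_ne_zero _ hp'.ne_zero
  unfold hh
  rw [Nat.primeFactors_mul hd0 hn, Nat.primeFactors_prime_pow (by omega) hp']
  have hpos : 0 < ρ ^ n.primeFactors.card := by positivity
  by_cases h : p ∈ n.primeFactors
  · have : ({p} : Finset ℕ) ∪ n.primeFactors = n.primeFactors := by
      rw [Finset.union_eq_right, Finset.singleton_subset_iff]
      exact h
    rw [this]
    linarith
  · rw [Finset.card_union_of_disjoint (by rwa [Finset.disjoint_singleton_left]),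
      Finset.card_singleton, pow_add, pow_one]
    exact mul_le_mul_of_nonneg_right h2 hpos.le

lemma hh_prime_pow (ρ : ℝ) {p n : ℕ} (hp : p.Prime) : hh ρ (p ^ (n + 1)) = ρ := by
  unfold hh
  rw [Nat.primeFactors_prime_pow (by omega) hp, Finset.card_singleton, pow_one]

/-- the sum with the logarithm -/
lemma sum_log {ρ : ℝ} (h0 : 0 < ρ) (h2 : ρ ≤ 2) (Y : ℕ) :
    ∑ m ∈ Icc 1 Y, hh ρ m * Real.log m ≤
    2 * ((Real.log 4 + 4) * Y * ∑ m ∈ Icc 1 Y, hh ρ m / m) := by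
  have h1 : ∀ m ∈ Icc 1 Y, hh ρ m * Real.log m ≤
      ∑ n ∈ m.divisors, ArithmeticFunction.vonMangoldt (m / n) * (2 * hh ρ n) := by
    intro m hm
    have hm0 : m ≠ 0 := by have := (Finset.mem_Icc.mp hm).1; omega
    rw [← ArithmeticFunction.vonMangoldt_sum, ← Nat.sum_div_divisors, Finset.mul_sum]
    refine Finset.sum_le_sum fun n hn => ?_
    have hnm := Nat.dvd_of_mem_divisors hn
    have hn0 : n ≠ 0 := fun h => hm0 (by rw [h] at hnm; exact Nat.eq_zero_of_zero_dvd hnm)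
    by_cases hpp : IsPrimePow (m / n)
    · have h2 := hh_le h0 h2 hpp hn0
      rw [Nat.div_mul_cancel hnm] at h2
      have h3 : 0 ≤ ArithmeticFunction.vonMangoldt (m / n) :=
        ArithmeticFunction.vonMangoldt_nonneg
      rw [mul_comm]
      exact mul_le_mul_of_nonneg_left h2 h3
    · have h3 : ArithmeticFunction.vonMangoldt (m / n) = 0 :=
        ArithmeticFunction.vonMangoldt_eq_zero_iff.mpr hpp
      rw [h3]; simp
  refine (Finset.sum_le_sum h1).trans ?_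
  have h2 : ∑ m ∈ Icc 1 Y, ∑ n ∈ m.divisors,
      ArithmeticFunction.vonMangoldt (m / n) * (2 * hh ρ n) =
      ∑ n ∈ Icc 1 Y, ∑ m ∈ (Icc 1 Y).filter (fun m => n ∣ m),
        ArithmeticFunction.vonMangoldt (m / n) * (2 * hh ρ n) := by
    apply Finset.sum_comm'
    intro m n
    simp only [Finset.mem_Icc, Nat.mem_divisors, Finset.mem_filter]
    constructor
    · rintro ⟨⟨h1, h2⟩, h3, h4⟩
      have := Nat.le_of_dvd (by omega) h3
      have h5 : 0 < n := Nat.pos_of_dvd_of_pos h3 (by omega)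
      exact ⟨⟨⟨h1, h2⟩, h3⟩, by omega, by omega⟩
    · rintro ⟨⟨⟨h1, h2⟩, h3⟩, h4, h5⟩
      exact ⟨⟨h1, h2⟩, h3, by omega⟩
  rw [h2, Finset.mul_sum, Finset.mul_sum]
  refine Finset.sum_le_sum fun n hn => ?_
  have hn1 : 1 ≤ n := (Finset.mem_Icc.mp hn).1
  have hn0 : (0 : ℝ) < n := by exact_mod_cast hn1
  rw [← Finset.sum_mul]
  have h3 : ∑ m ∈ (Icc 1 Y).filter (fun m => n ∣ m), ArithmeticFunction.vonMangoldt (m / n) =
      ∑ d ∈ Ioc 0 (Y / n), ArithmeticFunction.vonMangoldt d := by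
    apply Finset.sum_nbij' (fun m => m / n) (fun d => d * n)
    · intro m hm
      simp only [Finset.mem_filter, Finset.mem_Icc] at hm
      obtain ⟨⟨h1, h2⟩, h3⟩ := hm
      simp only [Finset.mem_Ioc]
      exact ⟨Nat.div_pos (Nat.le_of_dvd (by omega) h3) (by omega), Nat.div_le_div_right h2⟩
    · intro d hd
      simp only [Finset.mem_Ioc] at hd
      simp only [Finset.mem_filter, Finset.mem_Icc]
      refine ⟨⟨Nat.mul_pos hd.1 (by omega), ?_⟩, Dvd.intro_left _ rfl⟩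
      exact (Nat.le_div_iff_mul_le (by omega)).mp hd.2
    · intro m hm
      simp only [Finset.mem_filter] at hm
      exact Nat.div_mul_cancel hm.2
    · intro d _
      exact Nat.mul_div_cancel _ (by omega)
    · intro m _; rfl
  have h4 : ∑ d ∈ Ioc 0 (Y / n), ArithmeticFunction.vonMangoldt d ≤
      (Real.log 4 + 4) * (Y / n) := by
    have h5 := Chebyshev.psi_le_const_mul_self (x := ((Y / n : ℕ) : ℝ)) (Nat.cast_nonneg _)
    unfold Chebyshev.psi at h5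
    rw [Nat.floor_natCast] at h5
    refine h5.trans (mul_le_mul_of_nonneg_left Nat.cast_div_le ?_)
    have := Real.log_nonneg (show (1 : ℝ) ≤ 4 by norm_num)
    linarith
  rw [h3]
  calc (∑ d ∈ Ioc 0 (Y / n), ArithmeticFunction.vonMangoldt d) * (2 * hh ρ n)
      ≤ (Real.log 4 + 4) * (Y / n) * (2 * hh ρ n) :=
        mul_le_mul_of_nonneg_right h4 (by have := hh_pos h0 n; positivity)
    _ = 2 * ((Real.log 4 + 4) * Y * (hh ρ n / n)) := by ring

lemma sum_all {ρ : ℝ} (h0 : 0 < ρ) (h2 : ρ ≤ 2) (Y : ℕ) (hY : 1 ≤ Y) :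
    (∑ m ∈ Icc 1 Y, hh ρ m) * Real.log Y ≤
    (2 * (Real.log 4 + 4) + 1) * Y * ∑ m ∈ Icc 1 Y, hh ρ m / m := by
  have h1 : (∑ m ∈ Icc 1 Y, hh ρ m) * Real.log Y ≤
      ∑ m ∈ Icc 1 Y, hh ρ m * Real.log m + Y * ∑ m ∈ Icc 1 Y, hh ρ m / m := by
    rw [Finset.sum_mul, Finset.mul_sum, ← Finset.sum_add_distrib]
    refine Finset.sum_le_sum fun m hm => ?_
    obtain ⟨hm1, hm2⟩ := Finset.mem_Icc.mp hm
    have hm0 : (0 : ℝ) < m := by exact_mod_cast hm1
    have hY0 : (0 : ℝ) < Y := by exact_mod_cast hY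
    have h2 : Real.log Y - Real.log m ≤ Y / m := by
      rw [← Real.log_div hY0.ne' hm0.ne']
      have := Real.log_le_sub_one_of_pos (show (0 : ℝ) < Y / m by positivity)
      linarith
    have h3 := mul_le_mul_of_nonneg_left h2 (hh_pos h0 m).le
    have h4 : (Y : ℝ) * (hh ρ m / m) = hh ρ m * (Y / m) := by ring
    rw [h4]
    nlinarith
  have h2 := sum_log h0 h2 Y
  linarith

/-- the Euler product bound -/
lemma euler {ρ : ℝ} (h0 : 0 < ρ) (h2 : ρ ≤ 2) (Y : ℕ) : ∑ m ∈ Icc 1 Y, hh ρ m / m ≤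
    ∏ p ∈ (Y + 1).primesBelow, (1 + ρ / p + 4 / (p : ℝ) ^ 2) := by
  set f : ℕ → ℝ := fun m => hh ρ m / m with hf
  have hf1 : f 1 = 1 := by simp [hf, hh_one]
  have hmul : ∀ {m n : ℕ}, Nat.Coprime m n → f (m * n) = f m * f n := by
    intro m n h
    simp only [hf]
    rw [hh_mul h]; push_cast; ring
  have hfpos : ∀ m, 0 ≤ f m := fun m => div_nonneg (hh_pos h0 m).le (Nat.cast_nonneg _)
  have hle' : ∀ p n : ℕ, p.Prime → f (p ^ n) ≤ 2 * (1 / p : ℝ) ^ n := fun p n hp => by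
    simp only [hf]
    rcases n with _ | n
    · simp [hh_one]
    · rw [hh_prime_pow ρ hp]
      push_cast
      rw [one_div_pow, mul_one_div]
      exact div_le_div_of_nonneg_right h2 (by positivity)
  have hgeo : ∀ {p : ℕ}, p.Prime → Summable (fun n : ℕ => (1 / p : ℝ) ^ n) := fun {p} hp =>
    summable_geometric_of_lt_one (by positivity) (by
      rw [div_lt_one (by exact_mod_cast hp.pos)]; exact_mod_cast hp.one_lt)
  have hsum : ∀ {p : ℕ}, p.Prime → Summable (fun n : ℕ => ‖f (p ^ n)‖) := fun {p} hp => by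
    refine Summable.of_nonneg_of_le (fun n => norm_nonneg _) (fun n => ?_) ((hgeo hp).mul_left 2)
    rw [Real.norm_of_nonneg (hfpos _)]
    exact hle' p n hp
  obtain ⟨hs, hh'⟩ := EulerProduct.summable_and_hasSum_smoothNumbers_prod_primesBelow_tsum
    hf1 hmul hsum (Y + 1)
  have hprod : ∏ p ∈ (Y + 1).primesBelow, ∑' n : ℕ, f (p ^ n) ≤
      ∏ p ∈ (Y + 1).primesBelow, (1 + ρ / p + 4 / (p : ℝ) ^ 2) := by
    refine Finset.prod_le_prod (fun p _ => tsum_nonneg fun n => hfpos _) (fun p hp => ?_)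
    have hpp : p.Prime := Nat.prime_of_mem_primesBelow hp
    have hp2 : (2 : ℝ) ≤ p := by exact_mod_cast hpp.two_le
    have hsp : Summable (fun n : ℕ => f (p ^ n)) := (hsum hpp).of_norm
    rw [hsp.tsum_eq_zero_add, ((summable_nat_add_iff 1).mpr hsp).tsum_eq_zero_add]
    have h2 : ∑' n : ℕ, f (p ^ (n + 1 + 1)) ≤ 4 / (p : ℝ) ^ 2 := by
      have hs2 : Summable (fun n : ℕ => f (p ^ (n + 1 + 1))) :=
        (summable_nat_add_iff (f := fun n : ℕ => f (p ^ (n + 1))) 1).mpr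
          ((summable_nat_add_iff (f := fun n : ℕ => f (p ^ n)) 1).mpr hsp)
      have hg := hgeo hpp
      have h3 : ∑' n : ℕ, f (p ^ (n + 1 + 1)) ≤
          ∑' n : ℕ, 2 * (1 / p : ℝ) ^ 2 * (1 / p : ℝ) ^ n := by
        refine hs2.tsum_le_tsum (fun n => ?_) (hg.mul_left _)
        refine (hle' p _ hpp).trans (le_of_eq ?_)
        ring
      refine h3.trans ?_
      rw [tsum_mul_left, tsum_geometric_of_lt_one (by positivity) (by
        rw [div_lt_one (by linarith)]; linarith)]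
      have h4 : (1 - 1 / (p : ℝ))⁻¹ ≤ 2 := by
        rw [inv_le_comm₀ (by
          have : 1 / (p : ℝ) ≤ 1 / 2 := one_div_le_one_div_of_le (by norm_num) hp2
          linarith) (by norm_num)]
        have : 1 / (p : ℝ) ≤ 1 / 2 := one_div_le_one_div_of_le (by norm_num) hp2
        norm_num at this ⊢
        linarith
      calc 2 * (1 / (p : ℝ)) ^ 2 * (1 - 1 / (p : ℝ))⁻¹ ≤ 2 * (1 / (p : ℝ)) ^ 2 * 2 :=
            mul_le_mul_of_nonneg_left h4 (by positivity)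
        _ = 4 / (p : ℝ) ^ 2 := by rw [one_div_pow]; ring
    have e0 : f (p ^ 0) = 1 := by rw [pow_zero]; exact hf1
    have e1 : f (p ^ (0 + 1)) = ρ / p := by
      simp only [hf]
      rw [hh_prime_pow ρ hpp, zero_add, pow_one]
    rw [e0, e1]
    linarith
  refine le_trans ?_ hprod
  rw [← hh'.tsum_eq]
  have hsm : Summable (fun m : (Y + 1).smoothNumbers => f m) := hh'.summable
  have hinj : ∀ m ∈ Icc 1 Y, m ∈ (Y + 1).smoothNumbers := fun m hm => by
    obtain ⟨h1, h2⟩ := Finset.mem_Icc.mp hm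
    exact Nat.mem_smoothNumbers_of_lt (by omega) (by omega)
  let S : Finset (Y + 1).smoothNumbers := (Icc 1 Y).subtype (fun m => m ∈ (Y + 1).smoothNumbers)
  have hS : ∑ m ∈ S, f m = ∑ m ∈ Icc 1 Y, f m := by
    rw [Finset.sum_subtype_of_mem f hinj]
  rw [← hS]
  exact hsm.sum_le_tsum S (fun m _ => hfpos _)

lemma sum_harm {ρ : ℝ} (h0 : 0 < ρ) (h2 : ρ ≤ 2) (Y : ℕ) : ∑ m ∈ Icc 1 Y, hh ρ m / m ≤
    Real.exp (ρ * ∑ p ∈ (Icc 1 Y).filter Nat.Prime, (1 : ℝ) / p +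
      4 * ∑' n : ℕ, 1 / (n : ℝ) ^ 2) := by
  refine (euler h0 h2 Y).trans ?_
  have h1 : ∏ p ∈ (Y + 1).primesBelow, (1 + ρ / p + 4 / (p : ℝ) ^ 2) ≤
      ∏ p ∈ (Y + 1).primesBelow, Real.exp (ρ / p + 4 / (p : ℝ) ^ 2) := by
    refine Finset.prod_le_prod (fun p _ => ?_) (fun p _ => ?_)
    · positivity
    · have := Real.add_one_le_exp (ρ / p + 4 / (p : ℝ) ^ 2)
      linarith
  refine h1.trans ?_
  have hb : (Y + 1).primesBelow = (Icc 1 Y).filter Nat.Prime := by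
    ext p
    simp only [Nat.mem_primesBelow, Finset.mem_filter, Finset.mem_Icc]
    constructor
    · rintro ⟨h1, h2⟩
      exact ⟨⟨h2.one_lt.le, by omega⟩, h2⟩
    · rintro ⟨⟨h1, h2⟩, h3⟩
      exact ⟨by omega, h3⟩
  rw [← Real.exp_sum, Real.exp_le_exp, Finset.sum_add_distrib]
  have hs : Summable (fun n : ℕ => 1 / (n : ℝ) ^ 2) := Real.summable_one_div_nat_pow.2 (by norm_num)
  have h2 : ∑ p ∈ (Y + 1).primesBelow, 4 / (p : ℝ) ^ 2 ≤ 4 * ∑' n : ℕ, 1 / (n : ℝ) ^ 2 := by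
    have h3 := hs.sum_le_tsum (Y + 1).primesBelow (fun n _ => by positivity)
    have h4 : ∑ p ∈ (Y + 1).primesBelow, 4 / (p : ℝ) ^ 2 =
        4 * ∑ p ∈ (Y + 1).primesBelow, 1 / (p : ℝ) ^ 2 := by
      rw [Finset.mul_sum]
      exact Finset.sum_congr rfl fun p _ => by ring
    rw [h4]
    linarith
  have h5 : ∑ p ∈ (Y + 1).primesBelow, ρ / (p : ℝ) =
      ρ * ∑ p ∈ (Icc 1 Y).filter Nat.Prime, (1 : ℝ) / p := by
    rw [hb, Finset.mul_sum]
    exact Finset.sum_congr rfl fun p _ => by ring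
  rw [h5]
  linarith

/-- **The bound of Hall and Tenenbaum** for `ρ ^ ω(m)` -/
theorem sum_rho {ρ : ℝ} (h0 : 0 < ρ) (h2 : ρ ≤ 2) : ∃ C : ℝ, 0 < C ∧ ∀ Y : ℕ, 3 ≤ Y →
    ∑ m ∈ Icc 1 Y, ρ ^ m.primeFactors.card ≤ C * Y * Real.log Y ^ (ρ - 1) := by
  obtain ⟨C2, hC2⟩ := Pool.Agent.Helper256.KM.mertens_inv
  set K : ℝ := 4 * ∑' n : ℕ, 1 / (n : ℝ) ^ 2 with hK
  have h4 : 0 ≤ Real.log 4 := Real.log_nonneg (by norm_num)
  set A : ℝ := 2 * (Real.log 4 + 4) + 1 with hA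
  have hA0 : 0 < A := by positivity
  refine ⟨A * Real.exp (ρ * C2 + K), by positivity, fun Y hY => ?_⟩
  have hY0 : (0 : ℝ) < Y := by exact_mod_cast (by omega : 0 < Y)
  have hlog : 0 < Real.log Y := Real.log_pos (by exact_mod_cast (by omega : 1 < Y))
  have hM := (abs_le.mp (hC2 Y hY)).2
  have hall := sum_all h0 h2 Y (by omega)
  have hharm := sum_harm h0 h2 Y
  rw [← hK] at hharm
  have h5 : ∑ m ∈ Icc 1 Y, hh ρ m / m ≤
      Real.exp (ρ * C2 + K) * Real.log Y ^ ρ := by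
    refine hharm.trans ?_
    rw [Real.rpow_def_of_pos hlog, ← Real.exp_add, Real.exp_le_exp]
    nlinarith
  have h6 : (∑ m ∈ Icc 1 Y, hh ρ m) * Real.log Y ≤
      (A * Real.exp (ρ * C2 + K) * Y * Real.log Y ^ (ρ - 1)) * Real.log Y := by
    refine hall.trans ?_
    have e : Real.log Y ^ (ρ - 1) * Real.log Y = Real.log Y ^ ρ := by
      rw [Real.rpow_sub_one hlog.ne', div_mul_cancel₀ _ hlog.ne']
    calc A * Y * ∑ m ∈ Icc 1 Y, hh ρ m / m
        ≤ A * Y * (Real.exp (ρ * C2 + K) * Real.log Y ^ ρ) :=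
          mul_le_mul_of_nonneg_left h5 (by positivity)
      _ = _ := by rw [← e]; ring
  exact le_of_mul_le_mul_right h6 hlog

end Pool.Agent.L7h46.AM
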