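import Mathlib
import Pool.Agent.L7h46.AM.Wom

/-!
# Project AM (MP_157626_nt, helper72): the integers with an atypical number of prime factors
-/

set_option autoImplicit false

open Finset

namespace Pool.Agent.L7h46.AM

/-- the `n ≤ Y` whose number of prime factors is not between `3/4 L` and `5/4 L` -/
noncomputable def Aty (L : ℝ) (Y : ℕ) : Finset ℕ := (Icc 1 Y).filter (fun n : ℕ =>
  (n.primeFactors.card : ℝ) < 3 / 4 * L ∨ 5 / 4 * L < (n.primeFactors.card : ℝ))

/-- Rankin -/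
lemma rank_up {ρ t : ℝ} (h0 : 0 < ρ) (Y : ℕ) (P : ℕ → Prop) [DecidablePred P]
    (hP : ∀ n ∈ Icc 1 Y, P n → t ≤ ρ ^ n.primeFactors.card) :
    t * ((Icc 1 Y).filter P).card ≤ ∑ m ∈ Icc 1 Y, ρ ^ m.primeFactors.card := by
  rw [Finset.card_eq_sum_ones, Finset.sum_filter]
  push_cast
  rw [Finset.mul_sum]
  refine Finset.sum_le_sum fun m hm => ?_
  split_ifs with h
  · rw [mul_one]; exact hP m hm h
  · rw [mul_zero]; positivity

theorem aty_le {K : ℝ} (hK : 1 ≤ K) : ∃ C : ℝ, 0 < C ∧ ∀ Y H : ℕ, 3 ≤ Y → 3 ≤ H →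
    Real.log Y ≤ K * Real.log H → Real.log H ≤ K * Real.log Y →
    ((Aty (Real.log (Real.log H)) Y).card : ℝ) ≤ C * Y * Real.log H ^ (-(1 / 72) : ℝ) := by
  obtain ⟨C1, hC1, h1⟩ := sum_rho (ρ := 9 / 8) (by norm_num) (by norm_num)
  obtain ⟨C2, hC2, h2⟩ := sum_rho (ρ := 7 / 8) (by norm_num) (by norm_num)
  have hK0 : 0 < K := by linarith
  refine ⟨C1 * K ^ (1 / 8 : ℝ) + C2 * K ^ (1 / 8 : ℝ), by positivity, fun Y H hY hH a1 a2 => ?_⟩
  have hY0 : (0 : ℝ) < Y := by exact_mod_cast (by omega : 0 < Y)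
  have hlY : 0 < Real.log Y := Real.log_pos (by exact_mod_cast (by omega : 1 < Y))
  have hlH1 : 1 ≤ Real.log H := by
    rw [Real.le_log_iff_exp_le (by exact_mod_cast (by omega : 0 < H))]
    have := Real.exp_one_lt_d9
    have h3 : (3 : ℝ) ≤ H := by exact_mod_cast hH
    linarith
  have hlH : 0 < Real.log H := by linarith
  set L := Real.log (Real.log H) with hL
  have hL0 : 0 ≤ L := Real.log_nonneg hlH1
  have hexp : ∀ s : ℝ, Real.log H ^ s = Real.exp (L * s) := fun s =>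
    Real.rpow_def_of_pos hlH s
  -- the upper part
  have u1 : (((Icc 1 Y).filter (fun n : ℕ => 5 / 4 * L < (n.primeFactors.card : ℝ))).card : ℝ) ≤
      C1 * K ^ (1 / 8 : ℝ) * Y * Real.log H ^ (-(1 / 72) : ℝ) := by
    have e1 := rank_up (ρ := 9 / 8) (t := Real.exp (5 / 4 * L * Real.log (9 / 8))) (by norm_num) Y
      (fun n : ℕ => 5 / 4 * L < (n.primeFactors.card : ℝ)) (by
        intro n _ hn
        have : ((9 / 8 : ℝ) ^ n.primeFactors.card) =
            Real.exp (n.primeFactors.card * Real.log (9 / 8)) := by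
          rw [← Real.log_pow, Real.exp_log (by positivity)]
        rw [this, Real.exp_le_exp]
        exact mul_le_mul_of_nonneg_right hn.le (Real.log_nonneg (by norm_num)))
    have e2 := e1.trans (h1 Y hY)
    have e3 : Real.log Y ^ (9 / 8 - 1 : ℝ) ≤ K ^ (1 / 8 : ℝ) * Real.log H ^ (1 / 8 : ℝ) := by
      rw [← Real.mul_rpow hK0.le hlH.le]
      have : (9 / 8 - 1 : ℝ) = 1 / 8 := by norm_num
      rw [this]
      exact Real.rpow_le_rpow hlY.le a1 (by norm_num)
    have e4 : C1 * Y * Real.log Y ^ (9 / 8 - 1 : ℝ) ≤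
        C1 * Y * (K ^ (1 / 8 : ℝ) * Real.log H ^ (1 / 8 : ℝ)) :=
      mul_le_mul_of_nonneg_left e3 (by positivity)
    have e5 := e2.trans e4
    have e6 : Real.log H ^ (1 / 8 : ℝ) ≤
        Real.exp (5 / 4 * L * Real.log (9 / 8)) * Real.log H ^ (-(1 / 72) : ℝ) := by
      rw [hexp, hexp, ← Real.exp_add, Real.exp_le_exp]
      have := Real.one_sub_inv_le_log_of_pos (show (0 : ℝ) < 9 / 8 by norm_num)
      have h9 : (1 / 9 : ℝ) ≤ Real.log (9 / 8) := by
        refine le_trans ?_ this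
        norm_num
      nlinarith
    have hE := Real.exp_pos (5 / 4 * L * Real.log (9 / 8))
    have e7 : Real.exp (5 / 4 * L * Real.log (9 / 8)) *
        (((Icc 1 Y).filter (fun n : ℕ => 5 / 4 * L < (n.primeFactors.card : ℝ))).card : ℝ) ≤
        Real.exp (5 / 4 * L * Real.log (9 / 8)) *
          (C1 * K ^ (1 / 8 : ℝ) * Y * Real.log H ^ (-(1 / 72) : ℝ)) := by
      refine e5.trans ?_
      calc C1 * Y * (K ^ (1 / 8 : ℝ) * Real.log H ^ (1 / 8 : ℝ))
          ≤ C1 * Y * (K ^ (1 / 8 : ℝ) *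
            (Real.exp (5 / 4 * L * Real.log (9 / 8)) * Real.log H ^ (-(1 / 72) : ℝ))) := by
            gcongr
        _ = _ := by ring
    exact le_of_mul_le_mul_left e7 hE
  -- the lower part
  have u2 : (((Icc 1 Y).filter (fun n : ℕ => (n.primeFactors.card : ℝ) < 3 / 4 * L)).card : ℝ) ≤
      C2 * K ^ (1 / 8 : ℝ) * Y * Real.log H ^ (-(1 / 72) : ℝ) := by
    have hneg : Real.log (7 / 8) ≤ 0 := Real.log_nonpos (by norm_num) (by norm_num)
    have e1 := rank_up (ρ := 7 / 8) (t := Real.exp (3 / 4 * L * Real.log (7 / 8))) (by norm_num) Y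
      (fun n : ℕ => (n.primeFactors.card : ℝ) < 3 / 4 * L) (by
        intro n _ hn
        have : ((7 / 8 : ℝ) ^ n.primeFactors.card) =
            Real.exp (n.primeFactors.card * Real.log (7 / 8)) := by
          rw [← Real.log_pow, Real.exp_log (by positivity)]
        rw [this, Real.exp_le_exp]
        exact mul_le_mul_of_nonpos_right hn.le hneg)
    have e2 := e1.trans (h2 Y hY)
    have e3 : Real.log Y ^ (7 / 8 - 1 : ℝ) ≤ K ^ (1 / 8 : ℝ) * Real.log H ^ (-(1 / 8) : ℝ) := by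
      have : (7 / 8 - 1 : ℝ) = -(1 / 8) := by norm_num
      rw [this]
      have b1 : Real.log H / K ≤ Real.log Y := by
        rw [div_le_iff₀ hK0]; linarith
      have b2 : Real.log Y ^ (-(1 / 8) : ℝ) ≤ (Real.log H / K) ^ (-(1 / 8) : ℝ) :=
        Real.rpow_le_rpow_of_nonpos (by positivity) b1 (by norm_num)
      refine b2.trans (le_of_eq ?_)
      rw [Real.div_rpow hlH.le hK0.le, Real.rpow_neg hK0.le, div_inv_eq_mul, mul_comm]
    have e4 : C2 * Y * Real.log Y ^ (7 / 8 - 1 : ℝ) ≤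
        C2 * Y * (K ^ (1 / 8 : ℝ) * Real.log H ^ (-(1 / 8) : ℝ)) :=
      mul_le_mul_of_nonneg_left e3 (by positivity)
    have e5 := e2.trans e4
    have e6 : Real.log H ^ (-(1 / 8) : ℝ) ≤
        Real.exp (3 / 4 * L * Real.log (7 / 8)) * Real.log H ^ (-(1 / 72) : ℝ) := by
      rw [hexp, hexp, ← Real.exp_add, Real.exp_le_exp]
      have := Real.one_sub_inv_le_log_of_pos (show (0 : ℝ) < 7 / 8 by norm_num)
      have h9 : (-(1 / 7) : ℝ) ≤ Real.log (7 / 8) := by
        refine le_trans ?_ this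
        norm_num
      nlinarith
    have hE := Real.exp_pos (3 / 4 * L * Real.log (7 / 8))
    have e7 : Real.exp (3 / 4 * L * Real.log (7 / 8)) *
        (((Icc 1 Y).filter (fun n : ℕ => (n.primeFactors.card : ℝ) < 3 / 4 * L)).card : ℝ) ≤
        Real.exp (3 / 4 * L * Real.log (7 / 8)) *
          (C2 * K ^ (1 / 8 : ℝ) * Y * Real.log H ^ (-(1 / 72) : ℝ)) := by
      refine e5.trans ?_
      calc C2 * Y * (K ^ (1 / 8 : ℝ) * Real.log H ^ (-(1 / 8) : ℝ))
          ≤ C2 * Y * (K ^ (1 / 8 : ℝ) *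
            (Real.exp (3 / 4 * L * Real.log (7 / 8)) * Real.log H ^ (-(1 / 72) : ℝ))) := by
            gcongr
        _ = _ := by ring
    exact le_of_mul_le_mul_left e7 hE
  have u3 : (Aty L Y).card ≤
      ((Icc 1 Y).filter (fun n : ℕ => (n.primeFactors.card : ℝ) < 3 / 4 * L)).card +
      ((Icc 1 Y).filter (fun n : ℕ => 5 / 4 * L < (n.primeFactors.card : ℝ))).card := by
    unfold Aty
    rw [Finset.filter_or]
    exact Finset.card_union_le _ _
  have u4 : ((Aty L Y).card : ℝ) ≤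
      (((Icc 1 Y).filter (fun n : ℕ => (n.primeFactors.card : ℝ) < 3 / 4 * L)).card : ℝ) +
      (((Icc 1 Y).filter (fun n : ℕ => 5 / 4 * L < (n.primeFactors.card : ℝ))).card : ℝ) := by
    exact_mod_cast u3
  refine u4.trans ?_
  linarith

end Pool.Agent.L7h46.AM
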