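import Mathlib
import Pool.Agent.L7h46.AM.Aty
import Pool.Agent.L7h72.AM.Stm2

/-!
# Project AM (MP_157626_nt, helper72): S_BAD, the unbalanced curves are rare
-/

set_option autoImplicit false

open Finset

namespace Pool.Agent.L7h46.AM

open Pool.Agent.W262.RK Pool.Agent.W307.RT Pool.Agent.L7h19.RH Pool.Agent.L7h72.AM2

lemma om_neg (n : ℤ) : om (-n) = om n := by unfold om; rw [Int.natAbs_neg]

lemma om_sub (a b : ℤ) : om (a - b) = om (b - a) := by rw [← om_neg, neg_sub]

lemma perm3 {e1 e2 e3 r1 r2 r3 A B : ℤ} (h1 : e1 + e2 + e3 = 0) (h2 : e1 * e2 + e1 * e3 + e2 * e3 = A)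
    (h3 : -(e1 * e2 * e3) = B) (g1 : r1 + r2 + r3 = 0) (g2 : A = r1 * r2 + r1 * r3 + r2 * r3)
    (g3 : B = -(r1 * r2 * r3)) :
    (e1 = r1 ∧ e2 = r2 ∧ e3 = r3) ∨ (e1 = r1 ∧ e2 = r3 ∧ e3 = r2) ∨
    (e1 = r2 ∧ e2 = r1 ∧ e3 = r3) ∨ (e1 = r2 ∧ e2 = r3 ∧ e3 = r1) ∨
    (e1 = r3 ∧ e2 = r1 ∧ e3 = r2) ∨ (e1 = r3 ∧ e2 = r2 ∧ e3 = r1) := by
  have k1 : (e1 - r1) * (e1 - r2) * (e1 - r3) = 0 := by
    linear_combination e1 ^ 2 * h1 - e1 ^ 2 * g1 - e1 * h2 - e1 * g2 - h3 - g3
  have two : ∀ {x y s t : ℤ}, x + y = s + t → x * y = s * t → (x = s ∧ y = t) ∨ (x = t ∧ y = s) := by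
    intro x y s t a b
    have : (x - s) * (x - t) = 0 := by linear_combination x * a - b
    rcases mul_eq_zero.1 this with h | h
    · left; constructor <;> linarith
    · right; constructor <;> linarith
  have pr : e2 * e3 = A - e1 * (e2 + e3) := by linear_combination h2
  rcases mul_eq_zero.1 k1 with h | h
  · rcases mul_eq_zero.1 h with h | h
    · have e : e1 = r1 := by linarith
      rcases two (x := e2) (y := e3) (s := r2) (t := r3) (by linarith) (by
        rw [pr, g2]
        have : e2 + e3 = r2 + r3 := by linarith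
        rw [this, e]; ring) with h' | h'
      · left; exact ⟨e, h'⟩
      · right; left; exact ⟨e, h'⟩
    · have e : e1 = r2 := by linarith
      rcases two (x := e2) (y := e3) (s := r1) (t := r3) (by linarith) (by
        rw [pr, g2]
        have : e2 + e3 = r1 + r3 := by linarith
        rw [this, e]; ring) with h' | h'
      · right; right; left; exact ⟨e, h'⟩
      · right; right; right; left; exact ⟨e, h'⟩
  · have e : e1 = r3 := by linarith
    rcases two (x := e2) (y := e3) (s := r1) (t := r2) (by linarith) (by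
      rw [pr, g2]
      have : e2 + e3 = r1 + r2 := by linarith
      rw [this, e]; ring) with h' | h'
    · right; right; right; right; left; exact ⟨e, h'⟩
    · right; right; right; right; right; exact ⟨e, h'⟩

/-- a curve with `IB > 0` -/
lemma ib_pos {H : ℕ} {x : ℤ × ℤ} (hx : x ∈ Cv 2 H) (h : 0 < IB x) : ∃ a d : ℕ, 0 < a ∧ 0 < d ∧
    FF x = ((a : ℤ), ((a + d : ℕ) : ℤ)) ∧ (a + d) ^ 6 ≤ 128 * H ∧
    (d.primeFactors.card + a.primeFactors.card < (a + d).primeFactors.card ∨
      (a + d).primeFactors.card + d.primeFactors.card < a.primeFactors.card ∨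
      a.primeFactors.card + (a + d).primeFactors.card < d.primeFactors.card) := by
  have hx' := hx
  simp only [Cv, Finset.mem_filter] at hx
  obtain ⟨-, hD, hH, -, -, hT⟩ := hx
  obtain ⟨r, hr, hF⟩ := FF_spec (roots3 hD hT)
  change RT3 x r at hr
  change FF x = _ at hF
  have hb := bound6 hr hH
  obtain ⟨l1, l2, hs, hA, hB⟩ := hr
  obtain ⟨a, ha⟩ := Int.eq_ofNat_of_zero_le (show 0 ≤ r.2.1 - r.1 by linarith)
  obtain ⟨d, hd⟩ := Int.eq_ofNat_of_zero_le (show 0 ≤ r.2.2 - r.2.1 by linarith)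
  have hab : r.2.2 - r.1 = ((a + d : ℕ) : ℤ) := by push_cast; linarith
  refine ⟨a, d, by omega, by omega, by rw [hF, ha, hab], ?_, ?_⟩
  · have := hb.2
    rw [hab, Int.natAbs_natCast] at this
    exact this
  · have hne : (IBset x).Nonempty := by
      by_contra h0
      rw [Set.not_nonempty_iff_eq_empty] at h0
      unfold IB at h
      rw [h0, csSup_empty] at h
      exact absurd h (by simp)
    have hbd : BddAbove (IBset x) := by
      by_contra h0
      unfold IB at h
      rw [csSup_of_not_bddAbove h0, csSup_empty] at h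
      exact absurd h (by simp)
    have hm : IB x ∈ IBset x := Nat.sSup_mem hne hbd
    obtain ⟨e1, e2, e3, h1, h2, h3, h5⟩ := hm
    have hsp : spl (e2 - e3) (e2 - e1) ≤ om (e2 - e3) := Finset.card_filter_le _ _
    have h4 : IB x ≤ om (e2 - e3) - (om (e1 - e2) + om (e1 - e3)) := by omega
    clear h5 hsp
    have oa : om (r.2.1 - r.1) = a.primeFactors.card := by
      rw [ha]; rfl
    have od : om (r.2.2 - r.2.1) = d.primeFactors.card := by
      rw [hd]; rfl
    have ob : om (r.2.2 - r.1) = (a + d).primeFactors.card := by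
      rw [hab]; unfold om; rw [Int.natAbs_natCast]
    rcases perm3 h1 h2 h3 hs hA hB with ⟨rfl, rfl, rfl⟩ | ⟨rfl, rfl, rfl⟩ | ⟨rfl, rfl, rfl⟩ |
      ⟨rfl, rfl, rfl⟩ | ⟨rfl, rfl, rfl⟩ | ⟨rfl, rfl, rfl⟩
    · rw [om_sub r.2.1 r.2.2, om_sub r.1 r.2.1, om_sub r.1 r.2.2, oa, od, ob] at h4
      omega
    · rw [om_sub r.1 r.2.1, om_sub r.1 r.2.2, oa, od, ob] at h4
      omega
    · rw [om_sub r.1 r.2.2, om_sub r.2.1 r.2.2, oa, od, ob] at h4
      omega
    · rw [om_sub r.2.1 r.2.2, oa, od, ob] at h4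
      omega
    · rw [om_sub r.1 r.2.1, oa, od, ob] at h4
      omega
    · rw [oa, od, ob] at h4
      omega

/-- the bad pairs are few -/
lemma pairs {H T : ℕ} (hH : 3 ≤ H) (hT : ∀ a : ℕ, a ^ 6 ≤ 128 * H → a ≤ T) :
    ((Cv 2 H).filter (fun x => 0 < IB x)).card ≤
      3 * (T * (Aty (Real.log (Real.log H)) T).card) := by
  classical
  set L := Real.log (Real.log H) with hL
  have hlH1 : 1 ≤ Real.log H := by
    rw [Real.le_log_iff_exp_le (by exact_mod_cast (by omega : 0 < H))]
    have := Real.exp_one_lt_d9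
    have h3 : (3 : ℝ) ≤ H := by exact_mod_cast hH
    linarith
  have hL0 : 0 ≤ L := Real.log_nonneg hlH1
  set P := (Aty L T) ×ˢ (Icc 1 T) with hP
  set S1 := P.image (fun t : ℕ × ℕ => ((t.1 : ℤ), ((t.2 : ℕ) : ℤ))) with hS1
  set S2 := P.image (fun t : ℕ × ℕ => ((t.2 : ℤ), ((t.1 : ℕ) : ℤ))) with hS2
  set S3 := P.image (fun t : ℕ × ℕ => ((t.2 : ℤ), ((t.2 + t.1 : ℕ) : ℤ))) with hS3
  have hcard : P.card = (Aty L T).card * T := by
    rw [hP, Finset.card_product, Nat.card_Icc]
    simp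
  have hsub : ((Cv 2 H).filter (fun x => 0 < IB x)).image FF ⊆ S1 ∪ S2 ∪ S3 := by
    intro t ht
    obtain ⟨x, hx, rfl⟩ := Finset.mem_image.1 ht
    obtain ⟨hx1, hx2⟩ := Finset.mem_filter.1 hx
    obtain ⟨a, d, ha, hd, hF, hle, hor⟩ := ib_pos hx1 hx2
    have hadT := hT _ hle
    rw [hF]
    have key : ∀ u : ℕ, 0 < u → u ≤ T → u ∉ Aty L T →
        3 / 4 * L ≤ (u.primeFactors.card : ℝ) ∧ (u.primeFactors.card : ℝ) ≤ 5 / 4 * L := by
      intro u h1 h2 h3
      unfold Aty at h3
      rw [Finset.mem_filter, Finset.mem_Icc] at h3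
      push Not at h3
      exact h3 ⟨h1, h2⟩
    by_cases ma : a ∈ Aty L T
    · apply Finset.mem_union_left
      apply Finset.mem_union_left
      rw [hS1, Finset.mem_image]
      exact ⟨(a, a + d), by rw [hP, Finset.mem_product, Finset.mem_Icc]; exact ⟨ma, by simp only; omega⟩, rfl⟩
    by_cases mb : a + d ∈ Aty L T
    · apply Finset.mem_union_left
      apply Finset.mem_union_right
      rw [hS2, Finset.mem_image]
      exact ⟨(a + d, a), by rw [hP, Finset.mem_product, Finset.mem_Icc]; exact ⟨mb, by simp only; omega⟩, rfl⟩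
    by_cases md : d ∈ Aty L T
    · apply Finset.mem_union_right
      rw [hS3, Finset.mem_image]
      exact ⟨(d, a), by rw [hP, Finset.mem_product, Finset.mem_Icc]; exact ⟨md, by simp only; omega⟩, rfl⟩
    exfalso
    have ka := key a ha (by omega) ma
    have kb := key (a + d) (by omega) hadT mb
    have kd := key d hd (by omega) md
    rcases hor with h | h | h
    · have h' : ((d.primeFactors.card : ℝ) + (a.primeFactors.card : ℝ)) <
        ((a + d).primeFactors.card : ℝ) := by exact_mod_cast h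
      linarith
    · have h' : (((a + d).primeFactors.card : ℝ) + (d.primeFactors.card : ℝ)) <
        (a.primeFactors.card : ℝ) := by exact_mod_cast h
      linarith
    · have h' : ((a.primeFactors.card : ℝ) + ((a + d).primeFactors.card : ℝ)) <
        (d.primeFactors.card : ℝ) := by exact_mod_cast h
      linarith
  have hinj : Set.InjOn FF (((Cv 2 H).filter (fun x => 0 < IB x) : Finset (ℤ × ℤ)) :
      Set (ℤ × ℤ)) := by
    intro x hx y hy hxy
    rw [Finset.mem_coe, Finset.mem_filter] at hx hy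
    exact (par2 H).1 (by exact_mod_cast hx.1) (by exact_mod_cast hy.1) hxy
  rw [← Finset.card_image_of_injOn hinj]
  refine (Finset.card_le_card hsub).trans ?_
  refine (Finset.card_union_le _ _).trans ?_
  have c1 : S1.card ≤ P.card := Finset.card_image_le
  have c2 : S2.card ≤ P.card := Finset.card_image_le
  have c3 : S3.card ≤ P.card := Finset.card_image_le
  have c4 := Finset.card_union_le S1 S2
  rw [mul_comm T]
  omega

theorem s_BAD : S_BAD := by
  classical
  obtain ⟨c, C1, T0, hc, hlow⟩ := low2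
  obtain ⟨Ca, hCa, haty⟩ := aty_le (K := 12) (by norm_num)
  set C0 : ℕ := 128 with hC0
  set D := C0 * C1 + 1 with hD
  have hD1 : 1 ≤ D := by omega
  -- the bound of the small heights
  set M := D * (T0 + 3) with hM
  have hM3 : 3 ≤ M := by nlinarith
  set B : ℝ := Real.log (((M + 1) ^ 6 : ℕ) : ℝ) with hB
  have hB0 : 0 ≤ B := Real.log_nonneg (by exact_mod_cast Nat.one_le_pow _ _ (by omega))
  refine ⟨1 / 72, B ^ (1 / 72 : ℝ) + 3 * Ca * (2 * (D : ℝ)) ^ 2 / c, by norm_num, fun H hH => ?_⟩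
  have hlH1 : 1 ≤ Real.log H := by
    rw [Real.le_log_iff_exp_le (by exact_mod_cast (by omega : 0 < H))]
    have := Real.exp_one_lt_d9
    have h3 : (3 : ℝ) ≤ H := by exact_mod_cast hH
    linarith
  have hlH : 0 < Real.log H := by linarith
  have hHr : (0 : ℝ) < H := by exact_mod_cast (by omega : 0 < H)
  have hpw : 0 < Real.log H ^ (1 / 72 : ℝ) := Real.rpow_pos_of_pos hlH _
  set K := (Cv 2 H).card with hK
  have hK0 : (0 : ℝ) ≤ K := Nat.cast_nonneg _
  have hq0 : 0 ≤ 3 * Ca * (2 * (D : ℝ)) ^ 2 / c := by positivity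
  have hB1 : 0 ≤ B ^ (1 / 72 : ℝ) := by positivity
  set T := Nat.findGreatest (fun t => t ^ 6 ≤ C0 * H) (C0 * H) with hT
  have hle : ∀ x : ℕ, x ^ 6 ≤ C0 * H → x ≤ T := by
    intro x hx
    apply Nat.le_findGreatest
    · exact (Nat.le_self_pow (by omega) x).trans hx
    · exact hx
  have hTk : T ^ 6 ≤ C0 * H := by
    have : (fun t => t ^ 6 ≤ C0 * H) T :=
      Nat.findGreatest_spec (P := fun t => t ^ 6 ≤ C0 * H) (Nat.zero_le _)
        (by rw [zero_pow (by omega)]; exact Nat.zero_le _)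
    exact this
  have hTk' : C0 * H < (T + 1) ^ 6 := by
    by_contra h
    push Not at h
    have := hle _ h
    omega
  rw [le_div_iff₀ hpw]
  rcases Nat.lt_or_ge T M with hlt | hge
  · -- small heights
    have h1 : H ≤ (M + 1) ^ 6 := by
      have : (T + 1) ^ 6 ≤ (M + 1) ^ 6 := Nat.pow_le_pow_left (by omega) 6
      omega
    have h2 : Real.log H ≤ B := Real.log_le_log hHr (by exact_mod_cast h1)
    have h3 : Real.log H ^ (1 / 72 : ℝ) ≤ B ^ (1 / 72 : ℝ) :=
      Real.rpow_le_rpow hlH.le h2 (by norm_num)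
    have h4 : (((Cv 2 H).filter (fun x => 0 < IB x)).card : ℝ) ≤ K := by
      exact_mod_cast Finset.card_filter_le _ _
    calc (((Cv 2 H).filter (fun x => 0 < IB x)).card : ℝ) * Real.log H ^ (1 / 72 : ℝ)
        ≤ K * B ^ (1 / 72 : ℝ) := mul_le_mul h4 h3 hpw.le hK0
      _ = B ^ (1 / 72 : ℝ) * K := mul_comm _ _
      _ ≤ _ := by
        apply mul_le_mul_of_nonneg_right _ hK0
        linarith
  · have hT3 : 3 ≤ T := hM3.trans hge
    have hTr : (1 : ℝ) ≤ T := by exact_mod_cast (by omega : 1 ≤ T)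
    have h1 := pairs hH hle
    have hlT : 0 < Real.log T := Real.log_pos (by exact_mod_cast (by omega : 1 < T))
    have b1 : Real.log T ≤ 12 * Real.log H := by
      have e1 : T ≤ H ^ 6 := by
        have : T ≤ T ^ 6 := Nat.le_self_pow (by omega) T
        have e2 : C0 * H ≤ H ^ 6 := by
          have : 3 ^ 5 ≤ H ^ 5 := Nat.pow_le_pow_left hH 5
          rw [pow_succ]
          exact Nat.mul_le_mul_right _ (by omega)
        omega
      have e3 : Real.log T ≤ Real.log ((H ^ 6 : ℕ) : ℝ) :=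
        Real.log_le_log (by linarith) (by exact_mod_cast e1)
      push_cast at e3
      rw [Real.log_pow] at e3
      push_cast at e3
      linarith
    have b2 : Real.log H ≤ 12 * Real.log T := by
      have e1 : H ≤ T ^ 12 := by
        have e2 : (T + 1) ^ 6 ≤ (T ^ 2) ^ 6 := Nat.pow_le_pow_left (by nlinarith) 6
        have e4 : (T ^ 2) ^ 6 = T ^ 12 := by ring
        omega
      have e3 : Real.log H ≤ Real.log ((T ^ 12 : ℕ) : ℝ) :=
        Real.log_le_log hHr (by exact_mod_cast e1)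
      push_cast at e3
      rw [Real.log_pow] at e3
      push_cast at e3
      linarith
    have h2 := haty T H hT3 hH b1 b2
    have h1' : (((Cv 2 H).filter (fun x => 0 < IB x)).card : ℝ) ≤
        3 * (T * ((Aty (Real.log (Real.log H)) T).card : ℝ)) := by exact_mod_cast h1
    set T' := T / D with hT'
    have hT'0 : T0 + 3 ≤ T' := by
      rw [hT', Nat.le_div_iff_mul_le hD1, mul_comm]
      exact hge
    have h2' : T' * D ≤ T := Nat.div_mul_le_self T D
    have h3 : C1 * T' ^ 6 ≤ H := by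
      have a1 : (T' * D) ^ 6 ≤ C0 * H := (Nat.pow_le_pow_left h2' 6).trans hTk
      rw [mul_pow] at a1
      have a2 : D ≤ D ^ 6 := Nat.le_self_pow (by omega) D
      have a3 : T' ^ 6 * (C0 * C1) ≤ C0 * H :=
        (Nat.mul_le_mul_left _ (by omega : C0 * C1 ≤ D ^ 6)).trans a1
      have a4 : C0 * (C1 * T' ^ 6) ≤ C0 * H := by
        calc C0 * (C1 * T' ^ 6) = T' ^ 6 * (C0 * C1) := by ring
          _ ≤ _ := a3
      exact Nat.le_of_mul_le_mul_left a4 (by omega)
    have h4 := hlow T' H (by omega) h3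
    have h5 : T ≤ 2 * D * T' := by
      have a1 : T < D * (T' + 1) := by
        rw [mul_comm]
        exact Nat.lt_mul_of_div_lt (by rw [← hT']; omega) hD1
      have a2 : D * (T' + 1) ≤ 2 * D * T' := by nlinarith
      omega
    have h6 : (T : ℝ) ≤ 2 * D * T' := by exact_mod_cast h5
    have hinv : Real.log H ^ (-(1 / 72) : ℝ) * Real.log H ^ (1 / 72 : ℝ) = 1 := by
      rw [← Real.rpow_add hlH]; norm_num
    calc (((Cv 2 H).filter (fun x => 0 < IB x)).card : ℝ) * Real.log H ^ (1 / 72 : ℝ)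
        ≤ 3 * (T * (Ca * T * Real.log H ^ (-(1 / 72) : ℝ))) * Real.log H ^ (1 / 72 : ℝ) := by
          apply mul_le_mul_of_nonneg_right _ hpw.le
          refine h1'.trans ?_
          gcongr
      _ = 3 * Ca * (T : ℝ) ^ 2 * (Real.log H ^ (-(1 / 72) : ℝ) * Real.log H ^ (1 / 72 : ℝ)) := by
          ring
      _ = 3 * Ca * (T : ℝ) ^ 2 := by rw [hinv, mul_one]
      _ ≤ 3 * Ca * (2 * D * T') ^ 2 := by
          apply mul_le_mul_of_nonneg_left _ (by positivity)
          exact pow_le_pow_left₀ (Nat.cast_nonneg T) h6 2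
      _ = 3 * Ca * (2 * (D : ℝ)) ^ 2 / c * (c * (T' : ℝ) ^ 2) := by
          field_simp
      _ ≤ 3 * Ca * (2 * (D : ℝ)) ^ 2 / c * K := mul_le_mul_of_nonneg_left h4 hq0
      _ ≤ _ := by
        apply mul_le_mul_of_nonneg_right _ hK0
        linarith

end Pool.Agent.L7h46.AM
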