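import Mathlib
import Pool.Agent.L7h19.RH.Sub
import Pool.Agent.L7h72.AM.Stm2

/-!
# Project AM (MP_157626_nt, helper72): S_GRO, the growth of the damped moments
-/

set_option autoImplicit false

namespace Pool.Agent.L7h46.AM

open Finset Pool.Agent.W262.RK Pool.Agent.W307.RT Pool.Agent.L7h19.RH Pool.Agent.L7h72.AM2
open Pool.Agent.W125.RK2 (sum_inter NL_congr)

/-- the excess -/
lemma exc_le {a b a' b' d : Fin 3 → ℕ} (h1 : ∀ c, a c ≤ b c) (h2 : ∀ c, a c ≤ a' c)
    (h3 : ∀ c, b' c ≤ b c + d c) : exc a b ≤ exc a' b' + (d 0 + d 1 + d 2) := by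
  unfold exc
  have x0 := h1 0
  have x1 := h1 1
  have x2 := h1 2
  have y0 := h2 0
  have y1 := h2 1
  have y2 := h2 2
  have z0 := h3 0
  have z1 := h3 1
  have z2 := h3 2
  omega

variable {J : Type} [Fintype J] [DecidableEq J]

lemma sum_cls (cls : J → Fin 3) (f : J → ℕ) :
    (∑ j ∈ univ.filter (fun j => cls j = 0), f j) + (∑ j ∈ univ.filter (fun j => cls j = 1), f j) +
      (∑ j ∈ univ.filter (fun j => cls j = 2), f j) = ∑ j, f j := by
  have h := Finset.sum_fiberwise (univ : Finset J) cls f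
  rw [← h, Fin.sum_univ_three]

theorem s_GRO : S_GRO := by
  intro J _ _ cls k z y s e hT
  classical
  have hT' : (∀ j, s j * e j ∈ (PP z y).divisors) ∧
      ∀ i j, i ≠ j → (s i * e i).Coprime (s j * e j) := by
    unfold Tup at hT
    rw [mem_filter, Fintype.mem_piFinset] at hT
    exact hT
  have hsqj : ∀ j, Squarefree (s j * e j) := fun j => dv_squarefree (hT'.1 j)
  have hsq : ∀ U : Finset J, Squarefree (∏ j ∈ U, (s j * e j)) := by
    intro U
    apply Finset.squarefree_prod_of_pairwise_isCoprime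
    · intro i _ j _ hij
      exact Nat.coprime_iff_isRelPrime.1 (hT'.2 i j hij)
    · intro j _
      exact hsqj j
  have hs0 : ∀ j, s j ≠ 0 := fun j => left_ne_zero_of_mul (hsqj j).ne_zero
  have he0 : ∀ j, e j ≠ 0 := fun j => right_ne_zero_of_mul (hsqj j).ne_zero
  set P := Q0 s with hP
  set Q := Q0 e with hQ
  have hprod : ∏ j, (s j * e j) = (∏ j, s j) * ∏ j, e j := Finset.prod_mul_distrib
  have hme : Squarefree ((∏ j, s j) * ∏ j, e j) := by
    rw [← hprod]
    exact hsq univ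
  have hPQ : Disjoint P Q := by
    have h1 := Nat.coprime_of_squarefree_mul hme
    exact h1.disjoint_primeFactors
  have hPU : Q0 (fun j => s j * e j) = P ∪ Q := by
    rw [hP, hQ]
    unfold Q0
    rw [Finset.prod_mul_distrib]
    exact Nat.primeFactors_mul (prod_ne_zero_iff.2 fun j _ => hs0 j)
      (prod_ne_zero_iff.2 fun j _ => he0 j)
  -- primes dividing `∏ s`
  have hpr : ∀ p : ℕ, p.Prime → p ∣ ∏ j, s j → ∃ j0, p ∣ s j0 := by
    intro p hp h
    obtain ⟨j0, _, hj0⟩ := (hp.prime.dvd_finsetProd_iff _).1 h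
    exact ⟨j0, hj0⟩
  have hiff : ∀ p : ℕ, p.Prime → p ∣ ∏ j, s j → ∀ j, p ∣ s j * e j ↔ p ∣ s j := by
    intro p hp h j
    constructor
    · intro hj
      obtain ⟨j0, hj0⟩ := hpr p hp h
      by_cases hjj : j = j0
      · rw [hjj]
        exact hj0
      · exfalso
        have h1 := hT'.2 j j0 hjj
        have h2 : p ∣ (s j * e j).gcd (s j0 * e j0) := Nat.dvd_gcd hj (hj0.trans (Dvd.intro _ rfl))
        rw [h1.gcd_eq_one] at h2
        exact hp.one_lt.ne' (Nat.dvd_one.1 h2)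
    · intro hj
      exact hj.trans (Dvd.intro _ rfl)
  have hNL : ∀ E : Finset ℕ, NL (∏ j, s j) (LSs cls (fun j => s j * e j) E) =
      NL (∏ j, s j) (LSs cls s (E ∩ P)) := by
    intro E
    apply NL_congr
    intro p hp
    have hpp := Nat.prime_of_mem_primeFactors hp
    have hpd := Nat.dvd_of_mem_primeFactors hp
    funext v w h g
    unfold LSs
    apply propext
    apply forall_congr'
    intro j
    rw [hiff p hpp hpd j]
    apply imp_congr_right
    intro hj
    have hmem : p ∈ P := hp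
    have : (p ∈ E ∩ P) ↔ p ∈ E := by
      rw [mem_inter]
      exact ⟨fun h => h.1, fun h => ⟨h, hmem⟩⟩
    simp only [this]
  have hω : (∏ j, e j).primeFactors.card ≤ ∑ j, (e j).primeFactors.card := by
    have h1 : (∏ j, e j).primeFactors ⊆ univ.biUnion (fun j => (e j).primeFactors) := by
      intro p hp
      rw [mem_biUnion]
      have hpp := Nat.prime_of_mem_primeFactors hp
      obtain ⟨j, _, hj⟩ := (hpp.prime.dvd_finsetProd_iff _).1 (Nat.dvd_of_mem_primeFactors hp)
      exact ⟨j, mem_univ _, Nat.mem_primeFactors.2 ⟨hpp, hj, he0 j⟩⟩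
    exact (Finset.card_le_card h1).trans card_biUnion_le
  have hstep : ∀ E : Finset ℕ,
      (NL (∏ j, (s j * e j)) (LSs cls (fun j => s j * e j) E) : ℝ) ≤
      4 ^ (∑ j, (e j).primeFactors.card) *
        (NL (∏ j, s j) (LSs cls s (E ∩ P)) : ℝ) := by
    intro E
    have h1 := Pool.Agent.W125.RK2.sub4 (∏ j, s j) (∏ j, e j)
      (LSs cls (fun j => s j * e j) E) hme (fun p _ _ => xc_ss cls _ E p)
    rw [hNL E] at h1
    rw [hprod]
    have h2 : (NL ((∏ j, s j) * ∏ j, e j) (LSs cls (fun j => s j * e j) E) : ℝ) ≤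
        4 ^ (∏ j, e j).primeFactors.card *
          (NL (∏ j, s j) (LSs cls s (E ∩ P)) : ℝ) := by
      exact_mod_cast h1
    refine h2.trans ?_
    apply mul_le_mul_of_nonneg_right _ (Nat.cast_nonneg _)
    exact pow_le_pow_right₀ (by norm_num) hω
  set N := ∑ j, (e j).primeFactors.card with hN
  have hib : ∀ E : Finset ℕ, ibE cls s (E ∩ P) ≤ ibE cls (fun j => s j * e j) E + N := by
    intro E
    unfold ibE
    have h := exc_le (a := nus cls s (E ∩ P)) (b := nu cls s)
      (a' := nus cls (fun j => s j * e j) E) (b' := nu cls (fun j => s j * e j))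
      (d := fun c => ∑ j ∈ univ.filter (fun j => cls j = c), (e j).primeFactors.card)
      (fun c => Finset.sum_le_sum fun j _ => Finset.card_filter_le _ _)
      (fun c => by
        unfold nus
        refine Finset.sum_le_sum fun j _ => Finset.card_le_card fun p hp => ?_
        rw [Finset.mem_filter] at hp ⊢
        have hpp := Nat.prime_of_mem_primeFactors hp.1
        have hpd := Nat.dvd_of_mem_primeFactors hp.1
        have hpP : p ∈ P := by
          rw [hP]
          unfold Q0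
          exact Nat.mem_primeFactors.2 ⟨hpp, hpd.trans (Finset.dvd_prod_of_mem _ (mem_univ j)),
            prod_ne_zero_iff.2 fun j _ => hs0 j⟩
        refine ⟨Nat.mem_primeFactors.2 ⟨hpp, hpd.trans (Dvd.intro _ rfl), (hsqj j).ne_zero⟩, ?_⟩
        intro hE
        exact hp.2 (Finset.mem_inter.2 ⟨hE, hpP⟩))
      (fun c => by
        unfold nu
        rw [← Finset.sum_add_distrib]
        refine Finset.sum_le_sum fun j _ => ?_
        rw [Nat.primeFactors_mul (hs0 j) (he0 j)]
        exact Finset.card_union_le _ _)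
    have h' := sum_cls cls (fun j => (e j).primeFactors.card)
    rw [hN, ← h']
    exact h
  have hstep3 : ∀ E : Finset ℕ,
      ((NL (∏ j, (s j * e j)) (LSs cls (fun j => s j * e j) E) : ℝ) /
        2 ^ ibE cls (fun j => s j * e j) E) ^ k ≤
      ((8 : ℝ) ^ k) ^ N * ((NL (∏ j, s j) (LSs cls s (E ∩ P)) : ℝ) / 2 ^ ibE cls s (E ∩ P)) ^ k := by
    intro E
    rw [← pow_mul, mul_comm k N, pow_mul, ← mul_pow]
    apply pow_le_pow_left₀ (by positivity)
    rw [div_le_iff₀ (by positivity)]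
    refine (hstep E).trans ?_
    have h2 : (2 : ℝ) ^ ibE cls s (E ∩ P) ≤ 2 ^ (ibE cls (fun j => s j * e j) E + N) :=
      pow_le_pow_right₀ (by norm_num) (hib E)
    have h8 : (8 : ℝ) ^ N = 4 ^ N * 2 ^ N := by rw [← mul_pow]; norm_num
    have hx : (0 : ℝ) ≤ (NL (∏ j, s j) (LSs cls s (E ∩ P)) : ℝ) := Nat.cast_nonneg _
    have hy : (0 : ℝ) < 2 ^ ibE cls s (E ∩ P) := by positivity
    have h3 : 1 ≤ 2 ^ N * 2 ^ ibE cls (fun j => s j * e j) E / (2 : ℝ) ^ ibE cls s (E ∩ P) := by
      rw [one_le_div hy]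
      refine h2.trans (le_of_eq ?_)
      rw [pow_add, mul_comm]
    calc (4 : ℝ) ^ N * (NL (∏ j, s j) (LSs cls s (E ∩ P)) : ℝ)
        ≤ (4 : ℝ) ^ N * (NL (∏ j, s j) (LSs cls s (E ∩ P)) : ℝ) *
          (2 ^ N * 2 ^ ibE cls (fun j => s j * e j) E / (2 : ℝ) ^ ibE cls s (E ∩ P)) :=
          le_mul_of_one_le_right (by positivity) h3
      _ = _ := by rw [h8]; ring
  unfold GA
  rw [hPU, ← hP, card_union_of_disjoint hPQ]
  calc (1 / 2 : ℝ) ^ (P.card + Q.card) *
      ∑ E ∈ (P ∪ Q).powerset,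
        ((NL (∏ j, (s j * e j)) (LSs cls (fun j => s j * e j) E) : ℝ) /
          2 ^ ibE cls (fun j => s j * e j) E) ^ k ≤
      (1 / 2 : ℝ) ^ (P.card + Q.card) * ∑ E ∈ (P ∪ Q).powerset,
        ((8 : ℝ) ^ k) ^ N *
          ((NL (∏ j, s j) (LSs cls s (E ∩ P)) : ℝ) / 2 ^ ibE cls s (E ∩ P)) ^ k := by
        apply mul_le_mul_of_nonneg_left _ (by positivity)
        exact Finset.sum_le_sum fun E _ => hstep3 E
    _ = ((8 : ℝ) ^ k) ^ N * ((1 / 2 : ℝ) ^ P.card *
        ∑ E ∈ P.powerset, ((NL (∏ j, s j) (LSs cls s E) : ℝ) / 2 ^ ibE cls s E) ^ k) := by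
        rw [← Finset.mul_sum, sum_inter P Q hPQ
          (fun E => ((NL (∏ j, s j) (LSs cls s E) : ℝ) / 2 ^ ibE cls s E) ^ k), pow_add]
        have h2 : (1 / 2 : ℝ) ^ Q.card * 2 ^ Q.card = 1 := by
          rw [← mul_pow]
          norm_num
        linear_combination (((8 : ℝ) ^ k) ^ N * ((1 / 2 : ℝ) ^ P.card *
          ∑ E ∈ P.powerset, ((NL (∏ j, s j) (LSs cls s E) : ℝ) / 2 ^ ibE cls s E) ^ k)) * h2

end Pool.Agent.L7h46.AM
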