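import Mathlib
import Pool.Agent.L7h19.FT.Stm

/-!
# Projects AM, FT (MP_157626_nt): the numbers of solutions `NL` and `N0`
-/

set_option autoImplicit false

namespace Pool.Agent.L7h46.AM

open Finset Pool.Agent.W262.RK Pool.Agent.L7h19.FT
open Pool.Agent.L7h19.RH (LSs)

variable {J : Type} [Fintype J] [DecidableEq J]

lemma jac_prod (p : ℕ) (S : Finset ℕ) :
    jacobiSym (((∏ q ∈ S, q : ℕ) : ℤ)) p = ∏ q ∈ S, jacobiSym (q : ℤ) p := by
  classical
  induction S using Finset.induction_on with
  | empty => simp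
  | insert a S ha ih =>
    rw [Finset.prod_insert ha, Finset.prod_insert ha, Nat.cast_mul, jacobiSym.mul_left, ih]

lemma jac_part {p d : ℕ} (hp : p.Prime) (hd : Squarefree d) :
    jacobiSym ((d : ℤ) / ((Int.gcd (d : ℤ) (p : ℤ) : ℕ) : ℤ)) p =
      ∏ q ∈ d.primeFactors.erase p, jacobiSym (q : ℤ) p := by
  rw [Int.gcd_natCast_natCast, ← jac_prod]
  congr 1
  have h1 := Nat.prod_primeFactors_of_squarefree hd
  by_cases h : p ∣ d
  · have hmem : p ∈ d.primeFactors := Nat.mem_primeFactors.2 ⟨hp, h, hd.ne_zero⟩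
    rw [Nat.gcd_eq_right h]
    have h2 : d = p * ∏ q ∈ d.primeFactors.erase p, q := by
      conv_lhs => rw [← h1]
      exact (Finset.mul_prod_erase _ _ hmem).symm
    have h3 : (d : ℤ) = p * ((∏ q ∈ d.primeFactors.erase p, q : ℕ) : ℤ) := by exact_mod_cast h2
    conv_lhs => rw [h3]
    rw [Int.mul_ediv_cancel_left _ (by exact_mod_cast hp.ne_zero)]
  · have hnot : p ∉ d.primeFactors := fun h' => h (Nat.dvd_of_mem_primeFactors h')
    rw [Finset.erase_eq_of_notMem hnot, h1]
    have : d.gcd p = 1 := (Nat.Coprime.symm ((Nat.Prime.coprime_iff_not_dvd hp).2 h))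
    rw [this]
    simp

theorem nl_le (cls : J → Fin 3) {z y : ℕ} {s : J → ℕ} (hs : s ∈ Tup J z y) (E : Finset ℕ) :
    NL (∏ j, s j) (LSs cls s E) ≤ N0 (mc cls s) E := by
  classical
  have hT' : (∀ j, s j ∈ (PP z y).divisors) ∧ ∀ i j, i ≠ j → (s i).Coprime (s j) := by
    unfold Tup at hs
    rw [mem_filter, Fintype.mem_piFinset] at hs
    exact hs
  have hsqj : ∀ j, Squarefree (s j) := fun j => dv_squarefree (hT'.1 j)
  have hM : Mt (mc cls s) = ∏ j, s j := by
    unfold Mt mc
    exact Finset.prod_fiberwise univ cls s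
  set M := ∏ j, s j with hMd
  have hMsq : Squarefree M := by
    apply Finset.squarefree_prod_of_pairwise_isCoprime
    · intro i _ j _ hij
      exact Nat.coprime_iff_isRelPrime.1 (hT'.2 i j hij)
    · intro j _
      exact hsqj j
  have hM0 : M ≠ 0 := hMsq.ne_zero
  have huniq : ∀ p : ℕ, p.Prime → ∀ i j, p ∣ s i → p ∣ s j → i = j := by
    intro p hp i j hi hj
    by_contra hij
    have h1 := hT'.2 i j hij
    have h2 : p ∣ (s i).gcd (s j) := Nat.dvd_gcd hi hj
    rw [h1.gcd_eq_one] at h2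
    exact hp.one_lt.ne' (Nat.dvd_one.1 h2)
  obtain ⟨κ, hκ⟩ : ∃ κ : ℕ → Fin 3, ∀ p : ℕ, p.Prime → ∀ j, p ∣ s j → κ p = cls j := by
    refine ⟨fun p => if h : ∃ j, p ∣ s j then cls h.choose else 0, fun p hp j hj => ?_⟩
    have h : ∃ j, p ∣ s j := ⟨j, hj⟩
    simp only [dif_pos h]
    rw [huniq p hp _ _ h.choose_spec hj]
  have hpr : ∀ p ∈ M.primeFactors, ∃ j, p ∣ s j := by
    intro p hp
    obtain ⟨j0, _, hj0⟩ := ((Nat.prime_of_mem_primeFactors hp).prime.dvd_finsetProd_iff _).1
      (Nat.dvd_of_mem_primeFactors hp)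
    exact ⟨j0, hj0⟩
  have hκ2 : ∀ p ∈ M.primeFactors, ∀ c, p ∣ mc cls s c ↔ κ p = c := by
    intro p hp c
    have hpp := Nat.prime_of_mem_primeFactors hp
    unfold mc
    rw [hpp.prime.dvd_finsetProd_iff]
    constructor
    · rintro ⟨j, hj, hd⟩
      rw [hκ p hpp j hd]
      exact (mem_filter.1 hj).2
    · intro h
      obtain ⟨j, hj⟩ := hpr p hp
      exact ⟨j, by rw [mem_filter]; exact ⟨mem_univ _, by rw [← hκ p hpp j hj]; exact h⟩, hj⟩
  have hL : ∀ p ∈ M.primeFactors, ∀ v w h g, LSs cls s E p v w h g →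
      Pool.Agent.L7h19.RH.LS (κ p) (decide (p ∈ E)) v w h g := by
    intro p hp v w h g hh
    have hpp := Nat.prime_of_mem_primeFactors hp
    obtain ⟨j, hj⟩ := hpr p hp
    rw [hκ p hpp j hj]
    exact hh j hj
  -- the symbols
  have hJ : ∀ p ∈ M.primeFactors, ∀ q ∈ M.primeFactors.erase p,
      jacobiSym (q : ℤ) p = 1 ∨ jacobiSym (q : ℤ) p = -1 := by
    intro p hp q hq
    have hpp := Nat.prime_of_mem_primeFactors hp
    obtain ⟨hne, hq'⟩ := mem_erase.1 hq
    have hqp := Nat.prime_of_mem_primeFactors hq'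
    apply jacobiSym.eq_one_or_neg_one
    rw [Int.gcd_natCast_natCast]
    exact (Nat.coprime_primes hqp hpp).2 hne
  have hS : ∀ p ∈ M.primeFactors, ∀ d : ℕ, d ∣ M →
      ∏ q ∈ M.primeFactors.erase p, (if q ∣ d then jacobiSym (q : ℤ) p else 1) =
        if sgn p (d : ℤ) = true then -1 else 1 := by
    intro p hp d hd
    have hpp := Nat.prime_of_mem_primeFactors hp
    have hdsq : Squarefree d := hMsq.squarefree_of_dvd hd
    have h1 : ∏ q ∈ M.primeFactors.erase p, (if q ∣ d then jacobiSym (q : ℤ) p else 1) =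
        jacobiSym ((d : ℤ) / ((Int.gcd (d : ℤ) (p : ℤ) : ℕ) : ℤ)) p := by
      rw [jac_part hpp hdsq, ← Finset.prod_filter]
      apply Finset.prod_congr _ fun _ _ => rfl
      ext q
      rw [mem_filter, mem_erase, mem_erase, Nat.mem_primeFactors, Nat.mem_primeFactors]
      constructor
      · rintro ⟨⟨a, b, _⟩, c⟩
        exact ⟨a, b, c, hdsq.ne_zero⟩
      · rintro ⟨a, b, c, _⟩
        exact ⟨⟨a, b, c.trans hd, hM0⟩, c⟩
    have h2 : ∏ q ∈ M.primeFactors.erase p, (if q ∣ d then jacobiSym (q : ℤ) p else 1) = 1 ∨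
        ∏ q ∈ M.primeFactors.erase p, (if q ∣ d then jacobiSym (q : ℤ) p else 1) = -1 := by
      have : ∀ S : Finset ℕ, (∀ q ∈ S, jacobiSym (q : ℤ) p = 1 ∨ jacobiSym (q : ℤ) p = -1) →
          ∏ q ∈ S, (if q ∣ d then jacobiSym (q : ℤ) p else 1) = 1 ∨
          ∏ q ∈ S, (if q ∣ d then jacobiSym (q : ℤ) p else 1) = -1 := by
        intro S
        induction S using Finset.induction_on with
        | empty => intro _; left; simp
        | insert a S ha ih =>
          intro h
          rw [Finset.prod_insert ha]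
          have ih' := ih fun q hq => h q (mem_insert_of_mem hq)
          rcases h a (mem_insert_self _ _) with h3 | h3 <;> rcases ih' with h4 | h4 <;>
            rw [h3, h4] <;> split_ifs <;> simp
      exact this _ (hJ p hp)
    unfold sgn sg0
    rw [← h1]
    rcases h2 with h2 | h2 <;> rw [h2] <;> simp
  -- the map
  unfold NL N0
  rw [hM]
  apply Finset.card_le_card_of_injOn (fun d : ℕ × ℕ => Nat.lcm d.1 d.2)
  · intro d hd
    rw [Finset.mem_coe, mem_filter, mem_product] at hd
    obtain ⟨⟨h1, h2⟩, h3⟩ := hd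
    have d1 := Nat.dvd_of_mem_divisors h1
    have d2 := Nat.dvd_of_mem_divisors h2
    have de : Nat.lcm d.1 d.2 ∣ M := Nat.lcm_dvd d1 d2
    rw [Finset.mem_coe, mem_filter, Nat.mem_divisors]
    refine ⟨⟨de, hM0⟩, fun p hp => ?_⟩
    have hpp := Nat.prime_of_mem_primeFactors hp
    have hlc : ∀ q : ℕ, q.Prime → (q ∣ Nat.lcm d.1 d.2 ↔ q ∣ d.1 ∨ q ∣ d.2) := fun q hq =>
      hq.dvd_lcm
    have e1 : ∏ q ∈ (Nat.lcm d.1 d.2).primeFactors, sy3 (mc cls s) E p q =
        ∏ q ∈ M.primeFactors, (if q ∣ Nat.lcm d.1 d.2 then sy3 (mc cls s) E p q else 1) := by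
      rw [← Finset.prod_filter]
      apply Finset.prod_congr _ fun _ _ => rfl
      ext q
      rw [mem_filter, Nat.mem_primeFactors, Nat.mem_primeFactors]
      constructor
      · rintro ⟨a, b, _⟩
        exact ⟨⟨a, b.trans de, hM0⟩, b⟩
      · rintro ⟨⟨a, _, _⟩, b⟩
        exact ⟨a, b, (hMsq.squarefree_of_dvd de).ne_zero⟩
    have e2 : ∀ q ∈ M.primeFactors.erase p,
        (if q ∣ Nat.lcm d.1 d.2 then sy3 (mc cls s) E p q else 1) =
        (if q ∣ d.1 ∨ q ∣ d.2 then (if κ p = κ q then 1 else jacobiSym (q : ℤ) p) else 1) := by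
      intro q hq
      obtain ⟨hne, hq'⟩ := mem_erase.1 hq
      have hqp := Nat.prime_of_mem_primeFactors hq'
      have hc : (∃ c, p ∣ mc cls s c ∧ q ∣ mc cls s c) ↔ κ p = κ q := by
        constructor
        · rintro ⟨c, a, b⟩
          rw [(hκ2 p hp c).1 a, (hκ2 q hq' c).1 b]
        · intro h
          exact ⟨κ p, (hκ2 p hp _).2 rfl, (hκ2 q hq' _).2 h.symm⟩
      unfold sy3
      rw [if_neg hne]
      simp only [hlc q hqp, hc]
    rw [e1, ← Finset.mul_prod_erase _ _ hp, Finset.prod_congr rfl e2]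
    have hp1 := hS p hp d.1 d1
    have hp2 := hS p hp d.2 d2
    have hLp := hL p hp _ _ _ _ (h3 p hp)
    have hdv : ∀ (q n : ℕ), dv q (n : ℤ) = true ↔ q ∣ n := by
      intro q n
      unfold dv
      rw [decide_eq_true_iff]
      exact Int.natCast_dvd_natCast
    have hpt : (if p ∣ Nat.lcm d.1 d.2 then sy3 (mc cls s) E p p else 1) =
        if (p ∣ d.1 ∨ p ∣ d.2) then (if p ∈ E then (-1 : ℤ) else 1) else 1 := by
      unfold sy3
      simp only [hlc p hpp, if_true]
    rw [hpt]
    have hq3 : ∀ q ∈ M.primeFactors.erase p,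
        (κ q = 0 ∧ (q ∣ d.1 ↔ q ∣ d.2)) ∨ (κ q = 1 ∧ ¬ q ∣ d.2) ∨ (κ q = 2 ∧ ¬ q ∣ d.1) := by
      intro q hq
      have hq' := (mem_erase.1 hq).2
      have hLq := hL q hq' _ _ _ _ (h3 q hq')
      unfold Pool.Agent.L7h19.RH.LS at hLq
      by_cases c0 : κ q = 0
      · left
        rw [if_pos c0] at hLq
        refine ⟨c0, ?_⟩
        rw [← hdv, ← hdv, hLq.1]
      · rw [if_neg c0] at hLq
        by_cases c1 : κ q = 1
        · right; left
          rw [if_pos c1] at hLq
          refine ⟨c1, ?_⟩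
          rw [← hdv, hLq.1]
          simp
        · right; right
          rw [if_neg c1] at hLq
          refine ⟨by omega, ?_⟩
          rw [← hdv, hLq.1]
          simp
    have hv1 := hdv p d.1
    have hv2 := hdv p d.2
    unfold Pool.Agent.L7h19.RH.LS at hLp
    by_cases c0 : κ p = 0
    · rw [if_pos c0] at hLp
      have hprod : ∏ q ∈ M.primeFactors.erase p,
          (if q ∣ d.1 ∨ q ∣ d.2 then (if κ p = κ q then 1 else jacobiSym (q : ℤ) p) else 1) =
          (if sgn p (d.1 : ℤ) = true then -1 else 1) *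
            (if sgn p (d.2 : ℤ) = true then -1 else 1) := by
        rw [← hp1, ← hp2, ← Finset.prod_mul_distrib]
        refine Finset.prod_congr rfl fun q hq => ?_
        rcases hq3 q hq with ⟨k, a⟩ | ⟨k, a⟩ | ⟨k, a⟩
        · rw [c0, k]
          by_cases b : q ∣ d.1
          · have b2 := a.1 b
            rcases hJ p hp q hq with h | h <;> simp [b, b2, h]
          · have b2 : ¬ q ∣ d.2 := fun h => b (a.2 h)
            simp [b, b2]
        · rw [c0, k]
          by_cases b : q ∣ d.1 <;> simp [a, b]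
        · rw [c0, k]
          by_cases b : q ∣ d.2 <;> simp [a, b]
      rw [hprod]
      obtain ⟨a1, a2⟩ := hLp
      by_cases b : p ∣ d.1
      · have b1 : dv p (d.1 : ℤ) = true := hv1.2 b
        rw [b1] at a2
        simp only [Bool.true_and] at a2
        by_cases bE : p ∈ E
        · simp only [bE, decide_true] at a2
          rcases hh1 : sgn p (d.1 : ℤ) with _ | _ <;> rcases hh2 : sgn p (d.2 : ℤ) with _ | _ <;>
            rw [hh1, hh2] at a2 <;> simp_all
        · simp only [bE, decide_false] at a2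
          rcases hh1 : sgn p (d.1 : ℤ) with _ | _ <;> rcases hh2 : sgn p (d.2 : ℤ) with _ | _ <;>
            rw [hh1, hh2] at a2 <;> simp_all
      · have b1 : dv p (d.1 : ℤ) = false := by
          rw [← Bool.not_eq_true]; exact fun h => b (hv1.1 h)
        have b2 : ¬ p ∣ d.2 := fun h => by
          have := hv2.2 h
          rw [← a1, b1] at this
          exact absurd this (by simp)
        rw [b1] at a2
        simp only [Bool.false_and] at a2
        rcases hh1 : sgn p (d.1 : ℤ) with _ | _ <;> rcases hh2 : sgn p (d.2 : ℤ) with _ | _ <;>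
            rw [hh1, hh2] at a2 <;> simp_all
    · rw [if_neg c0] at hLp
      by_cases c1 : κ p = 1
      · rw [if_pos c1] at hLp
        have hprod : ∏ q ∈ M.primeFactors.erase p,
            (if q ∣ d.1 ∨ q ∣ d.2 then (if κ p = κ q then 1 else jacobiSym (q : ℤ) p) else 1) =
              (if sgn p (d.2 : ℤ) = true then -1 else 1) := by
          rw [← hp2]
          refine Finset.prod_congr rfl fun q hq => ?_
          rcases hq3 q hq with ⟨k, a⟩ | ⟨k, a⟩ | ⟨k, a⟩
          · rw [c1, k]
            by_cases b : q ∣ d.1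
            · have b2 := a.1 b
              simp [b, b2]
            · have b2 : ¬ q ∣ d.2 := fun h => b (a.2 h)
              simp [b, b2]
          · rw [c1, k]
            by_cases b : q ∣ d.1 <;> simp [a, b]
          · rw [c1, k]
            by_cases b : q ∣ d.2 <;> simp [a, b]
        rw [hprod]
        obtain ⟨a1, a2⟩ := hLp
        have b2 : ¬ p ∣ d.2 := fun h => by
          have := hv2.2 h
          rw [a1] at this
          exact absurd this (by simp)
        rw [a2]
        by_cases b : p ∣ d.1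
        · have b1 : dv p (d.1 : ℤ) = true := hv1.2 b
          rw [b1]
          by_cases bE : p ∈ E <;> simp [b, bE]
        · have b1 : dv p (d.1 : ℤ) = false := by
            rw [← Bool.not_eq_true]; exact fun h => b (hv1.1 h)
          rw [b1]
          simp [b, b2]
      · rw [if_neg c1] at hLp
        have c2 : κ p = 2 := by omega
        have hprod : ∏ q ∈ M.primeFactors.erase p,
            (if q ∣ d.1 ∨ q ∣ d.2 then (if κ p = κ q then 1 else jacobiSym (q : ℤ) p) else 1) =
              (if sgn p (d.1 : ℤ) = true then -1 else 1) := by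
          rw [← hp1]
          refine Finset.prod_congr rfl fun q hq => ?_
          rcases hq3 q hq with ⟨k, a⟩ | ⟨k, a⟩ | ⟨k, a⟩
          · rw [c2, k]
            by_cases b : q ∣ d.1
            · have b2 := a.1 b
              simp [b, b2]
            · have b2 : ¬ q ∣ d.2 := fun h => b (a.2 h)
              simp [b, b2]
          · rw [c2, k]
            by_cases b : q ∣ d.1 <;> simp [a, b]
          · rw [c2, k]
            by_cases b : q ∣ d.2 <;> simp [a, b]
        rw [hprod]
        obtain ⟨a1, a2⟩ := hLp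
        have b1 : ¬ p ∣ d.1 := fun h => by
          have := hv1.2 h
          rw [a1] at this
          exact absurd this (by simp)
        rw [a2]
        by_cases b : p ∣ d.2
        · have b2 : dv p (d.2 : ℤ) = true := hv2.2 b
          rw [b2]
          by_cases bE : p ∈ E <;> simp [b, bE]
        · have b2 : dv p (d.2 : ℤ) = false := by
            rw [← Bool.not_eq_true]; exact fun h => b (hv2.1 h)
          rw [b2]
          simp [b, b1]
  · intro d hd d' hd' hdd
    rw [Finset.mem_coe, mem_filter, mem_product] at hd hd'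
    obtain ⟨⟨h1, h2⟩, h3⟩ := hd
    obtain ⟨⟨h1', h2'⟩, h3'⟩ := hd'
    have hdd' : Nat.lcm d.1 d.2 = Nat.lcm d'.1 d'.2 := hdd
    have hdv : ∀ (q n : ℕ), dv q (n : ℤ) = true ↔ q ∣ n := by
      intro q n
      unfold dv
      rw [decide_eq_true_iff]
      exact Int.natCast_dvd_natCast
    have key : ∀ a b : ℕ, (∀ p ∈ M.primeFactors,
        LSs cls s E p (dv p a) (dv p b) (sgn p a) (sgn p b)) → ∀ q ∈ M.primeFactors,
        (q ∣ a ↔ q ∣ Nat.lcm a b ∧ κ q ≠ 2) ∧ (q ∣ b ↔ q ∣ Nat.lcm a b ∧ κ q ≠ 1) := by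
      intro a b h q hq
      have hqp := Nat.prime_of_mem_primeFactors hq
      have hLq := hL q hq _ _ _ _ (h q hq)
      rw [hqp.dvd_lcm, ← hdv q a, ← hdv q b]
      unfold Pool.Agent.L7h19.RH.LS at hLq
      by_cases c0 : κ q = 0
      · rw [if_pos c0] at hLq
        rw [c0, hLq.1]
        simp
      · rw [if_neg c0] at hLq
        by_cases c1 : κ q = 1
        · rw [if_pos c1] at hLq
          rw [c1, hLq.1]
          simp
        · rw [if_neg c1] at hLq
          have c2 : κ q = 2 := by omega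
          rw [c2, hLq.1]
          simp
    have ext1 : ∀ a b : ℕ, a ∣ M → b ∣ M → (∀ q ∈ M.primeFactors, q ∣ a ↔ q ∣ b) → a = b := by
      intro a b ha hb h
      rw [← Nat.prod_primeFactors_of_squarefree (hMsq.squarefree_of_dvd ha),
        ← Nat.prod_primeFactors_of_squarefree (hMsq.squarefree_of_dvd hb)]
      apply Finset.prod_congr _ fun _ _ => rfl
      ext q
      rw [Nat.mem_primeFactors, Nat.mem_primeFactors]
      constructor
      · rintro ⟨x, y, w⟩
        exact ⟨x, (h q (Nat.mem_primeFactors.2 ⟨x, y.trans ha, hM0⟩)).1 y,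
          (hMsq.squarefree_of_dvd hb).ne_zero⟩
      · rintro ⟨x, y, w⟩
        exact ⟨x, (h q (Nat.mem_primeFactors.2 ⟨x, y.trans hb, hM0⟩)).2 y,
          (hMsq.squarefree_of_dvd ha).ne_zero⟩
    have k1 := key d.1 d.2 h3
    have k2 := key d'.1 d'.2 h3'
    apply Prod.ext
    · apply ext1 _ _ (Nat.dvd_of_mem_divisors h1) (Nat.dvd_of_mem_divisors h1')
      intro q hq
      rw [(k1 q hq).1, (k2 q hq).1, hdd']
    · apply ext1 _ _ (Nat.dvd_of_mem_divisors h2) (Nat.dvd_of_mem_divisors h2')
      intro q hq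
      rw [(k1 q hq).2, (k2 q hq).2, hdd']

end Pool.Agent.L7h46.AM
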